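import Pool.Agent.NDR.StmtsG

/-!
Squad NDR, row SPH: the substitution `x_r = t` is a ring homomorphism.
-/

set_option autoImplicit false

namespace Pool.Agent.NDR.H41

open Finset

section basics

variable {ι K : Type} [Field K]

theorem tht_single (v : ι) (m : ι → ℤ) (c : K) :
    tht v (AddMonoidAlgebra.single m c : Lr K ι)
      = AddMonoidAlgebra.single m (((m v : ℤ) : K) * c) := by
  unfold tht
  rw [AddMonoidAlgebra.coeff_single, Finsupp.sum_single_index (by simp)]
  rfl

theorem tht_add (v : ι) (x y : Lr K ι) : tht v (x + y) = tht v x + tht v y := by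
  unfold tht
  rw [AddMonoidAlgebra.coeff_add, Finsupp.sum_add_index']
  · rfl
  · intro m
    simp
  · intro m a b
    rw [mul_add, Finsupp.single_add]

theorem tht_zero (v : ι) : tht v (0 : Lr K ι) = 0 := by
  unfold tht
  rw [AddMonoidAlgebra.coeff_zero, Finsupp.sum_zero_index]
  rfl

theorem cut_add (Q : Set (ι → ℤ)) (x y : Lr K ι) : cut Q (x + y) = cut Q x + cut Q y := by
  classical
  unfold cut
  rw [AddMonoidAlgebra.coeff_add, Finsupp.filter_add]
  rfl

theorem cut_zero (Q : Set (ι → ℤ)) : cut Q (0 : Lr K ι) = 0 := by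
  unfold cut
  rw [AddMonoidAlgebra.coeff_zero, Finsupp.filter_zero]
  rfl

theorem cut_single_of_mem (Q : Set (ι → ℤ)) {m : ι → ℤ} (hm : m ∈ Q) (c : K) :
    cut Q (AddMonoidAlgebra.single m c : Lr K ι) = AddMonoidAlgebra.single m c := by
  unfold cut
  rw [AddMonoidAlgebra.coeff_single]
  classical
  rw [Finsupp.filter_single_of_pos _ hm]
  rfl

theorem cut_single_of_not_mem (Q : Set (ι → ℤ)) {m : ι → ℤ} (hm : m ∉ Q) (c : K) :
    cut Q (AddMonoidAlgebra.single m c : Lr K ι) = 0 := by
  unfold cut
  rw [AddMonoidAlgebra.coeff_single]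
  classical
  rw [Finsupp.filter_single_of_neg _ hm]
  rfl

variable [DecidableEq ι] {K' : Type} [Field K'] [Algebra K K']

theorem spz_single (r : ι) (t : K') (m : ι → ℤ) (c : K) :
    spz r t (AddMonoidAlgebra.single m c : Lr K ι)
      = AddMonoidAlgebra.single (Function.update m r 0) (t ^ (m r) * algebraMap K K' c) := by
  unfold spz
  rw [AddMonoidAlgebra.coeff_single, Finsupp.sum_single_index (by simp)]
  rfl

theorem spz_add (r : ι) (t : K') (x y : Lr K ι) : spz r t (x + y) = spz r t x + spz r t y := by
  unfold spz
  rw [AddMonoidAlgebra.coeff_add, Finsupp.sum_add_index']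
  · rfl
  · intro m
    simp
  · intro m a b
    rw [map_add, mul_add, Finsupp.single_add]

theorem spz_zero (r : ι) (t : K') : spz r t (0 : Lr K ι) = 0 := by
  unfold spz
  rw [AddMonoidAlgebra.coeff_zero, Finsupp.sum_zero_index]
  rfl

/-- the substitution as an additive homomorphism -/
noncomputable def spzA (r : ι) (t : K') : Lr K ι →+ Lr K' ι where
  toFun := spz r t
  map_zero' := spz_zero r t
  map_add' := spz_add r t

theorem update_add (m m' : ι → ℤ) (r : ι) :
    Function.update (m + m') r 0 = Function.update m r 0 + Function.update m' r 0 := by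
  funext i
  by_cases h : i = r
  · subst h
    simp
  · simp [h]

theorem spz_mul (r : ι) {t : K'} (ht : t ≠ 0) (x y : Lr K ι) :
    spz r t (x * y) = spz r t x * spz r t y := by
  induction x using AddMonoidAlgebra.induction_linear with
  | zero => rw [zero_mul, spz_zero, zero_mul]
  | add a b ha hb => rw [add_mul, spz_add, spz_add, ha, hb, add_mul]
  | single m c =>
    induction y using AddMonoidAlgebra.induction_linear with
    | zero => rw [mul_zero, spz_zero, mul_zero]
    | add a b ha hb => rw [mul_add, spz_add, spz_add, ha, hb, mul_add]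
    | single m' c' =>
      rw [AddMonoidAlgebra.single_mul_single, spz_single, spz_single, spz_single,
        AddMonoidAlgebra.single_mul_single, update_add, map_mul, Pi.add_apply, zpow_add₀ ht]
      congr 1
      ring

theorem spz_one (r : ι) (t : K') : spz r t (1 : Lr K ι) = 1 := by
  rw [AddMonoidAlgebra.one_def, spz_single, AddMonoidAlgebra.one_def]
  simp

/-- the substitution as a ring homomorphism -/
noncomputable def spzR (r : ι) {t : K'} (ht : t ≠ 0) : Lr K ι →+* Lr K' ι where
  toFun := spz r t
  map_zero' := spz_zero r t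
  map_add' := spz_add r t
  map_one' := spz_one r t
  map_mul' := spz_mul r ht

end basics

section factor

set_option linter.unusedSectionVars false

variable {ι K : Type} [DecidableEq ι] [Field K]

theorem mem_MS_single (Q : Set (ι → ℤ)) {m : ι → ℤ} (hm : m ∈ Q) (a : K) :
    (AddMonoidAlgebra.single m a : Lr K ι) ∈ MS K Q := by
  classical
  intro n hn
  have h1 : (AddMonoidAlgebra.single m a : Lr K ι).coeff n ≠ 0 := hn
  rw [AddMonoidAlgebra.coeff_single, Finsupp.single_apply] at h1
  by_cases h : m = n
  · rw [← h]; exact hm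
  · rw [if_neg h] at h1
    exact absurd rfl h1

theorem cst_mul_mem (Q : Set (ι → ℤ)) (c : K) {g : Lr K ι} (hg : g ∈ MS K Q) :
    cst ι c * g ∈ MS K Q := by
  intro n hn
  apply hg n
  intro h0
  apply hn
  have h1 := AddMonoidAlgebra.coeff_single_mul_eq_mul_coeff (r := c) (x := g) (m := (0 : ι → ℤ))
    (m₁ := n) n (fun m' _ => by rw [zero_add])
  rw [h0, mul_zero] at h1
  exact h1

theorem update_eq (m : ι → ℤ) (r : ι) (n : ℤ) :
    Function.update m r (n + 1) = Pi.single r 1 + Function.update m r n := by
  funext i
  by_cases h : i = r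
  · subst h
    simp [add_comm]
  · simp [h]

theorem xr_mul_single (m : ι → ℤ) (r : ι) (n : ℤ) (a : K) :
    xr K r * AddMonoidAlgebra.single (Function.update m r n) a
      = AddMonoidAlgebra.single (Function.update m r (n + 1)) a := by
  unfold xr
  rw [AddMonoidAlgebra.single_mul_single, one_mul, update_eq]

theorem cst_mul_single (m : ι → ℤ) (c a : K) :
    cst ι c * AddMonoidAlgebra.single m a = AddMonoidAlgebra.single m (c * a) := by
  unfold cst
  rw [AddMonoidAlgebra.single_mul_single, zero_add]

theorem single_factor {c : K} (hc : c ≠ 0) (Q : Set (ι → ℤ)) (r : ι) (m : ι → ℤ)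
    (hQ : ∀ n : ℤ, Function.update m r n ∈ Q) (a : K) (n : ℤ) :
    ∃ g ∈ MS K Q, AddMonoidAlgebra.single (Function.update m r n) a
      - AddMonoidAlgebra.single (Function.update m r 0) (c ^ n * a)
        = (xr K r - cst ι c) * g := by
  induction n using Int.induction_on with
  | zero =>
    refine ⟨0, (MS K Q).zero_mem, ?_⟩
    rw [zpow_zero, one_mul, sub_self, mul_zero]
  | succ i ih =>
    obtain ⟨g, hg, e⟩ := ih
    refine ⟨AddMonoidAlgebra.single (Function.update m r i) a + cst ι c * g,
      (MS K Q).add_mem (mem_MS_single Q (hQ i) a) (cst_mul_mem Q c hg), ?_⟩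
    have h1 : (xr K r - cst ι c) * (AddMonoidAlgebra.single (Function.update m r (i : ℤ)) a
        + cst ι c * g) = xr K r * AddMonoidAlgebra.single (Function.update m r (i : ℤ)) a
          - cst ι c * AddMonoidAlgebra.single (Function.update m r (i : ℤ)) a
          + cst ι c * ((xr K r - cst ι c) * g) := by ring
    rw [h1, ← e, xr_mul_single, mul_sub, cst_mul_single, cst_mul_single]
    have h2 : c ^ ((i : ℤ) + 1) * a = c * (c ^ (i : ℤ) * a) := by
      rw [zpow_add_one₀ hc]; ring
    rw [h2]
    abel
  | pred i ih =>
    obtain ⟨g, hg, e⟩ := ih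
    refine ⟨cst ι c⁻¹ * g - AddMonoidAlgebra.single (Function.update m r (-(i : ℤ) - 1)) (c⁻¹ * a),
      (MS K Q).sub_mem (cst_mul_mem Q _ hg) (mem_MS_single Q (hQ _) _), ?_⟩
    have h1 : (xr K r - cst ι c) * (cst ι c⁻¹ * g
        - AddMonoidAlgebra.single (Function.update m r (-(i : ℤ) - 1)) (c⁻¹ * a))
          = cst ι c⁻¹ * ((xr K r - cst ι c) * g)
            - xr K r * AddMonoidAlgebra.single (Function.update m r (-(i : ℤ) - 1)) (c⁻¹ * a)
            + cst ι c * AddMonoidAlgebra.single (Function.update m r (-(i : ℤ) - 1)) (c⁻¹ * a) := by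
      ring
    rw [h1, ← e, xr_mul_single, mul_sub, cst_mul_single, cst_mul_single, cst_mul_single,
      sub_add_cancel, mul_inv_cancel_left₀ hc]
    have h2 : c ^ (-(i : ℤ) - 1) * a = c⁻¹ * (c ^ (-(i : ℤ)) * a) := by
      rw [zpow_sub_one₀ hc]; ring
    rw [h2]
    abel

theorem factor {c : K} (hc : c ≠ 0) (Q : Set (ι → ℤ)) (r : ι)
    (hQ : ∀ m ∈ Q, ∀ n : ℤ, Function.update m r n ∈ Q) (h : Lr K ι) (hh : h ∈ MS K Q) :
    ∃ g ∈ MS K Q, h - spz r c h = (xr K r - cst ι c) * g := by
  revert hh
  induction h using AddMonoidAlgebra.induction with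
  | zero =>
    intro _
    refine ⟨0, (MS K Q).zero_mem, ?_⟩
    rw [spz_zero, sub_self, mul_zero]
  | single_add m a x hm ha ih =>
    intro hh
    have h0 : x.coeff m = 0 := by
      by_contra h
      exact hm (Finsupp.mem_support_iff.2 h)
    have h1 : m ∈ Q := by
      apply hh m
      rw [AddMonoidAlgebra.coeff_add, AddMonoidAlgebra.coeff_single, Finsupp.add_apply,
        Finsupp.single_eq_same, h0, add_zero]
      exact ha
    have h2 : x ∈ MS K Q := by
      intro n hn
      by_cases hmn : n = m
      · rw [hmn]; exact h1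
      · apply hh n
        rw [AddMonoidAlgebra.coeff_add, AddMonoidAlgebra.coeff_single, Finsupp.add_apply,
          Finsupp.single_eq_of_ne hmn, zero_add]
        exact hn
    obtain ⟨g1, hg1, e1⟩ := ih h2
    obtain ⟨g2, hg2, e2⟩ := single_factor hc Q r m (hQ m h1) a (m r)
    rw [Function.update_eq_self] at e2
    refine ⟨g2 + g1, (MS K Q).add_mem hg2 hg1, ?_⟩
    rw [spz_add, spz_single, mul_add, ← e1, ← e2]
    have h3 : (algebraMap K K) a = a := rfl
    rw [h3]
    abel

end factor

theorem sph : SphStmt := by
  intro ι K _ _ r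
  refine ⟨?_, ?_, ?_, ?_⟩
  · intro K' _ _ t ht
    refine ⟨⟨spzR r ht, fun h => rfl⟩, ?_, ?_⟩
    · intro i hi h
      induction h using AddMonoidAlgebra.induction_linear with
      | zero => rw [tht_zero, spz_zero, tht_zero]
      | add a b ha hb => rw [tht_add, spz_add, spz_add, ha, hb, tht_add]
      | single m c =>
        rw [tht_single, spz_single, spz_single, tht_single, Function.update_of_ne hi, map_mul,
          map_intCast]
        congr 1
        ring
    · intro I F h hr
      induction h using AddMonoidAlgebra.induction_linear with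
      | zero => rw [cut_zero, spz_zero, cut_zero]
      | add a b ha hb => rw [cut_add, spz_add, spz_add, ha, hb, cut_add]
      | single m c =>
        have key : m ∈ ov I F ↔ Function.update m r 0 ∈ ov I F := by
          have e : ∀ i ∈ I, Function.update m r 0 i = m i := by
            intro i hi
            refine Function.update_of_ne (fun h => hr ?_) _ _
            rw [← h]
            exact hi
          constructor
          · rintro ⟨a, ha, h⟩
            exact ⟨a, ha, fun i hi => (e i hi).trans (h i hi)⟩
          · rintro ⟨a, ha, h⟩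
            exact ⟨a, ha, fun i hi => (e i hi).symm.trans (h i hi)⟩
        by_cases hm : m ∈ ov I F
        · rw [cut_single_of_mem _ hm, spz_single, cut_single_of_mem _ (key.1 hm)]
        · rw [cut_single_of_not_mem _ hm, spz_zero, spz_single,
            cut_single_of_not_mem _ fun h => hm (key.2 h)]
  · intro c h Q hc hQ hh h0
    obtain ⟨g, hg, e⟩ := factor hc Q r hQ h hh
    rw [h0, sub_zero] at e
    exact ⟨g, hg, e⟩
  · intro c g hg
    rcases mul_eq_zero.1 hg with h | h
    · exfalso
      have h1 : (xr K r - cst ι c).coeff (Pi.single r 1) = 1 := by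
        unfold xr cst
        rw [AddMonoidAlgebra.coeff_sub, AddMonoidAlgebra.coeff_single,
          AddMonoidAlgebra.coeff_single, Finsupp.sub_apply, Finsupp.single_eq_same,
          Finsupp.single_eq_of_ne, sub_zero]
        intro h2
        have h3 := congrFun h2 r
        simp at h3
      rw [h] at h1
      simp at h1
    · exact h
  · intro c h hh
    have e : (h.coeff.sum fun m a => Finsupp.single (Function.update m r 0)
        (c ^ (m r) * algebraMap K K a)) = h.coeff.sum fun m a => Finsupp.single m a := by
      apply Finsupp.sum_congr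
      intro m hm
      have h1 : m r = 0 := hh m (Finsupp.mem_support_iff.1 hm)
      have h2 : Function.update m r 0 = m := by
        rw [← h1, Function.update_eq_self]
      rw [h2, h1, zpow_zero, one_mul]
      rfl
    unfold spz
    rw [e, Finsupp.sum_single]

end Pool.Agent.NDR.H41
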